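import Mathlib

set_option autoImplicit false

/-!
Elements of a finite group whose order is divisible by all primes of a given set.
-/

namespace Pool.Y789.OP

open Finset

variable {G : Type*} [Group G] [Fintype G]

/-- The number of elements of `G` whose order is divisible by all members of `T`. -/
noncomputable def AT (G : Type*) [Group G] (T : Finset ℕ) : ℕ :=
  Nat.card {x : G // ∀ q ∈ T, q ∣ orderOf x}

open Classical in
lemma AT_eq (T : Finset ℕ) : AT G T = #{x : G | ∀ q ∈ T, q ∣ orderOf x} := by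
  unfold AT
  rw [Nat.card_eq_fintype_card, Fintype.card_subtype]

/-- The property: for all finite sets `T` of primes, at most as many elements of order divisible
by all primes of `T` as in the cyclic group of the same order. -/
def Prop1 (G : Type*) [Group G] : Prop :=
  ∀ T : Finset ℕ, (∀ q ∈ T, q.Prime) →
    (AT G T : ℝ) ≤ (Nat.card G : ℝ) *
      ∏ q ∈ T, (1 - 1 / ((q ^ (Nat.card G).factorization q : ℕ) : ℝ))

lemma prop1_of_equiv {G H : Type*} [Group G] [Group H] (e : G ≃* H)
    (h : Prop1 H) : Prop1 G := by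
  intro T hT
  have hc : Nat.card G = Nat.card H := Nat.card_congr e.toEquiv
  have h1 : AT G T = AT H T := by
    unfold AT
    refine Nat.card_congr (e.toEquiv.subtypeEquiv ?_)
    intro x
    have : orderOf (e.toEquiv x) = orderOf x := MulEquiv.orderOf_eq e x
    rw [this]
  rw [h1, hc]
  exact h T hT

/-- A prime different from `r` which divides the order of `x` divides the order of the image of
`x` in the quotient by a normal `r`-subgroup. -/
lemma dvd_image {r : ℕ} (hr : r.Prime) (M : Subgroup G) [M.Normal] (hM : IsPGroup r M)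
    {q : ℕ} (hq : q.Prime) (hqr : q ≠ r) (x : G) (h : q ∣ orderOf x) :
    q ∣ orderOf (x : G ⧸ M) := by
  have h1 : x ^ orderOf (x : G ⧸ M) ∈ M := by
    rw [← QuotientGroup.eq_one_iff, QuotientGroup.mk_pow, pow_orderOf_eq_one]
  obtain ⟨k, hk⟩ := hM ⟨_, h1⟩
  have h2 : x ^ (orderOf (x : G ⧸ M) * r ^ k) = 1 := by
    rw [pow_mul]
    have := congrArg Subtype.val hk
    simpa using this
  have h3 : orderOf x ∣ orderOf (x : G ⧸ M) * r ^ k := orderOf_dvd_of_pow_eq_one h2
  have h4 : q ∣ orderOf (x : G ⧸ M) * r ^ k := h.trans h3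
  rcases hq.dvd_mul.1 h4 with h5 | h5
  · exact h5
  · exact absurd ((Nat.prime_dvd_prime_iff_eq hq hr).1 (hq.dvd_of_dvd_pow h5)) hqr

/-- A coset of a normal `r`-subgroup whose order in the quotient is prime to `r` contains an
element of order prime to `r`. -/
lemma exists_regular {r : ℕ} (hr : r.Prime) (M : Subgroup G) [M.Normal] (hM : IsPGroup r M)
    (x : G) (h : ¬ r ∣ orderOf (x : G ⧸ M)) :
    ∃ y : G, (y : G ⧸ M) = (x : G ⧸ M) ∧ ¬ r ∣ orderOf y := by
  have h1 : x ^ orderOf (x : G ⧸ M) ∈ M := by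
    rw [← QuotientGroup.eq_one_iff, QuotientGroup.mk_pow, pow_orderOf_eq_one]
  obtain ⟨k, hk⟩ := hM ⟨_, h1⟩
  set m := orderOf (x : G ⧸ M) with hm
  have h2 : x ^ (m * r ^ k) = 1 := by
    rw [pow_mul]
    have := congrArg Subtype.val hk
    simpa using this
  have hcop : Nat.Coprime m (r ^ k) := by
    apply Nat.Coprime.pow_right
    exact ((Nat.Prime.coprime_iff_not_dvd hr).2 h).symm
  obtain ⟨j, hj1, hj2⟩ := Nat.chineseRemainder hcop 1 0
  -- `j ≡ 1 mod m`, `j ≡ 0 mod r ^ k`
  refine ⟨x ^ j, ?_, ?_⟩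
  · rw [QuotientGroup.mk_pow]
    conv_rhs => rw [← pow_one (x : G ⧸ M)]
    rw [pow_eq_pow_iff_modEq]
    exact hj1
  · intro hd
    have h3 : (x ^ j) ^ m = 1 := by
      obtain ⟨c, hc⟩ := (Nat.modEq_zero_iff_dvd.1 hj2)
      rw [← pow_mul, hc]
      have : r ^ k * c * m = (m * r ^ k) * c := by ring
      rw [this, pow_mul, h2, one_pow]
    exact h (hd.trans (orderOf_dvd_of_pow_eq_one h3))

open Classical in
lemma card_fiber (M : Subgroup G) [M.Normal] (h : G ⧸ M) :
    #{x : G | (x : G ⧸ M) = h} = Fintype.card M := by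
  obtain ⟨g, rfl⟩ := QuotientGroup.mk_surjective h
  rw [← Finset.card_univ (α := M)]
  symm
  refine Finset.card_bij (fun (m : M) _ => g * (m : G)) ?_ ?_ ?_
  · intro m _
    simp only [mem_filter, mem_univ, true_and]
    rw [QuotientGroup.eq]
    simp
  · intro a _ b _ hab
    exact Subtype.ext (mul_left_cancel hab)
  · intro b hb
    simp only [mem_filter, mem_univ, true_and] at hb
    rw [eq_comm, QuotientGroup.eq] at hb
    exact ⟨⟨_, hb⟩, mem_univ _, by simp⟩

open Classical in
lemma AT_eq_sum (M : Subgroup G) [M.Normal] (T : Finset ℕ) :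
    AT G T = ∑ h : G ⧸ M, #{x : G | (∀ q ∈ T, q ∣ orderOf x) ∧ (x : G ⧸ M) = h} := by
  rw [AT_eq]
  rw [Finset.card_eq_sum_card_fiberwise (f := fun x : G => (x : G ⧸ M)) (t := univ)
    (fun x _ => by simp)]
  apply Finset.sum_congr rfl
  intro h _
  congr 1
  ext x
  simp

open Classical in
/-- First case: the prime of the kernel is not in `T`. -/
lemma AT_le_of_notMem {r : ℕ} (hr : r.Prime) (M : Subgroup G) [M.Normal] (hM : IsPGroup r M)
    (T : Finset ℕ) (hT : ∀ q ∈ T, q.Prime) (hrT : r ∉ T) :
    AT G T ≤ Fintype.card M * AT (G ⧸ M) T := by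
  rw [AT_eq_sum M T]
  have h1 : ∀ h : G ⧸ M, #{x : G | (∀ q ∈ T, q ∣ orderOf x) ∧ (x : G ⧸ M) = h} ≤
      if ∀ q ∈ T, q ∣ orderOf h then Fintype.card M else 0 := by
    intro h
    split_ifs with hh
    · rw [← card_fiber M h]
      apply Finset.card_le_card
      intro x hx
      simp only [mem_filter, mem_univ, true_and] at hx ⊢
      exact hx.2
    · rw [Nat.le_zero, Finset.card_eq_zero]
      rw [Finset.filter_eq_empty_iff]
      rintro x - ⟨hx1, hx2⟩
      apply hh
      intro q hq
      rw [← hx2]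
      exact dvd_image hr M hM (hT q hq) (fun e => hrT (e ▸ hq)) x (hx1 q hq)
  refine (Finset.sum_le_sum fun h _ => h1 h).trans ?_
  rw [← Finset.sum_filter, Finset.sum_const, smul_eq_mul, mul_comm, AT_eq]

open Classical in
/-- Second case: the prime of the kernel is in `T`. -/
lemma AT_le_of_mem {r : ℕ} (hr : r.Prime) (M : Subgroup G) [M.Normal] (hM : IsPGroup r M)
    (T : Finset ℕ) (hT : ∀ q ∈ T, q.Prime) (hrT : r ∈ T) :
    AT G T ≤ AT (G ⧸ M) T + (Fintype.card M - 1) * AT (G ⧸ M) (T.erase r) := by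
  rw [AT_eq_sum M T]
  have hM1 : 1 ≤ Fintype.card M := Fintype.card_pos
  have h1 : ∀ h : G ⧸ M, #{x : G | (∀ q ∈ T, q ∣ orderOf x) ∧ (x : G ⧸ M) = h} ≤
      (if ∀ q ∈ T, q ∣ orderOf h then 1 else 0) +
      (if ∀ q ∈ T.erase r, q ∣ orderOf h then Fintype.card M - 1 else 0) := by
    intro h
    by_cases hh : ∀ q ∈ T.erase r, q ∣ orderOf h
    · rw [if_pos hh]
      by_cases hr' : r ∣ orderOf h
      · have : ∀ q ∈ T, q ∣ orderOf h := by
          intro q hq
          by_cases e : q = r
          · rw [e]; exact hr'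
          · exact hh q (mem_erase.2 ⟨e, hq⟩)
        rw [if_pos this]
        have h2 : #{x : G | (∀ q ∈ T, q ∣ orderOf x) ∧ (x : G ⧸ M) = h} ≤ Fintype.card M := by
          rw [← card_fiber M h]
          apply Finset.card_le_card
          intro x hx
          simp only [mem_filter, mem_univ, true_and] at hx ⊢
          exact hx.2
        omega
      · have : ¬ ∀ q ∈ T, q ∣ orderOf h := fun h' => hr' (h' r hrT)
        rw [if_neg this, zero_add]
        obtain ⟨g, rfl⟩ := QuotientGroup.mk_surjective h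
        obtain ⟨y, hy1, hy2⟩ := exists_regular hr M hM g hr'
        have h2 : #{x : G | (∀ q ∈ T, q ∣ orderOf x) ∧ (x : G ⧸ M) = (g : G ⧸ M)} <
            Fintype.card M := by
          rw [← card_fiber M (g : G ⧸ M)]
          apply Finset.card_lt_card
          rw [Finset.ssubset_iff_of_subset]
          · refine ⟨y, ?_, ?_⟩
            · simp only [mem_filter, mem_univ, true_and]
              exact hy1
            · simp only [mem_filter, mem_univ, true_and]
              rintro ⟨h3, -⟩
              exact hy2 (h3 r hrT)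
          · intro x hx
            simp only [mem_filter, mem_univ, true_and] at hx ⊢
            exact hx.2
        have h3 := h2

        omega
    · rw [if_neg hh]
      have : #{x : G | (∀ q ∈ T, q ∣ orderOf x) ∧ (x : G ⧸ M) = h} = 0 := by
        rw [Finset.card_eq_zero, Finset.filter_eq_empty_iff]
        rintro x - ⟨hx1, hx2⟩
        apply hh
        intro q hq
        rw [mem_erase] at hq
        rw [← hx2]
        exact dvd_image hr M hM (hT q hq.2) hq.1 x (hx1 q hq.2)
      rw [this]
      exact Nat.zero_le _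
  refine (Finset.sum_le_sum fun h _ => h1 h).trans ?_
  rw [Finset.sum_add_distrib, ← Finset.sum_filter, ← Finset.sum_filter, Finset.sum_const,
    Finset.sum_const, smul_eq_mul, smul_eq_mul, mul_one, AT_eq, AT_eq,
    mul_comm (Fintype.card M - 1)]

end Pool.Y789.OP
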