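import Pool.Agent.Y789.OP.Frob

set_option autoImplicit false

/-!
Domination from subgroups which cover, up to conjugation, the elements of order divisible by
several primes.
-/

namespace Pool.Y789.OP

open Finset

universe u

/-- Union bound for conjugates of a subgroup: the elements conjugate into `A` with order
divisible by the primes of `T`, times the order of the normalizer. -/
lemma card_conj_le {L : Type u} [Group L] [Finite L] (A : Subgroup L) (T : Finset ℕ) :
    Nat.card {x : L // (∀ q ∈ T, q ∣ orderOf x) ∧ ∃ g : L, g * x * g⁻¹ ∈ A} *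
      Nat.card (Subgroup.normalizer (A : Set L)) ≤ Nat.card L * AT A T := by
  classical
  haveI := Fintype.ofFinite L
  set X := {x : L // (∀ q ∈ T, q ∣ orderOf x) ∧ ∃ g : L, g * x * g⁻¹ ∈ A} with hX
  set Y := {a : A // ∀ q ∈ T, q ∣ orderOf a} with hY
  -- injection `X × N(A) → L × Y`
  have hch : ∀ x : X, ∃ g : L, g * x.1 * g⁻¹ ∈ A := fun x => x.2.2
  choose g hg using hch
  have hord : ∀ (h x : L), orderOf (h * x * h⁻¹) = orderOf x := by
    intro h x
    have := orderOf_injective (MulAut.conj h).toMonoidHom (MulAut.conj h).injective x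
    simpa using this
  have hmem : ∀ (x : X) (b : Subgroup.normalizer (A : Set L)),
      (b : L) * (g x * x.1 * (g x)⁻¹) * (b : L)⁻¹ ∈ A := by
    intro x b
    exact (Subgroup.mem_normalizer_iff.1 b.2 _).1 (hg x)
  let φ : X × Subgroup.normalizer (A : Set L) → L × Y := fun p =>
    ((p.2 : L) * g p.1, ⟨⟨(p.2 : L) * (g p.1 * p.1.1 * (g p.1)⁻¹) * (p.2 : L)⁻¹, hmem p.1 p.2⟩, by
      intro q hq
      rw [← Subgroup.orderOf_coe]
      simp only
      rw [hord, hord]
      exact p.1.2.1 q hq⟩)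
  have hφ : Function.Injective φ := by
    rintro ⟨x, b⟩ ⟨y, c⟩ h
    have h1 : (b : L) * g x = (c : L) * g y := congrArg Prod.fst h
    have h2 : (b : L) * (g x * x.1 * (g x)⁻¹) * (b : L)⁻¹ =
        (c : L) * (g y * y.1 * (g y)⁻¹) * (c : L)⁻¹ :=
      congrArg (fun z : L × Y => ((z.2.1 : A) : L)) h
    have h3 : ∀ (b' : L) (x' : L) (g' : L), b' * (g' * x' * g'⁻¹) * b'⁻¹ =
        (b' * g') * x' * (b' * g')⁻¹ := by
      intro b' x' g'
      group
    rw [h3, h3, h1] at h2
    have h4 : x.1 = y.1 := by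
      have := mul_right_cancel h2
      exact mul_left_cancel this
    have h5 : x = y := Subtype.ext h4
    subst h5
    have h6 : (b : L) = c := mul_right_cancel h1
    have h7 : b = c := Subtype.ext h6
    rw [h7]
  have h1 := Nat.card_le_card_of_injective φ hφ
  rw [Nat.card_prod, Nat.card_prod] at h1
  exact h1

/-- Domination for one set of primes. -/
def DomT (L : Type u) [Group L] (T : Finset ℕ) : Prop :=
  (AT L T : ℝ) ≤ (Nat.card L : ℝ) *
    ∏ q ∈ T, (1 - 1 / ((q ^ (Nat.card L).factorization q : ℕ) : ℝ))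

lemma factor_nonneg {q : ℕ} (hq : q.Prime) (a : ℕ) : (0 : ℝ) ≤ 1 - 1 / ((q ^ a : ℕ) : ℝ) := by
  have : (1 : ℝ) ≤ ((q ^ a : ℕ) : ℝ) := by
    exact_mod_cast Nat.one_le_pow _ _ hq.pos
  rw [sub_nonneg, div_le_one (by linarith)]
  exact this

lemma factor_mono {q : ℕ} (hq : q.Prime) {a b : ℕ} (h : a ≤ b) :
    (1 - 1 / ((q ^ a : ℕ) : ℝ)) ≤ 1 - 1 / ((q ^ b : ℕ) : ℝ) := by
  have h1 : (0 : ℝ) < ((q ^ a : ℕ) : ℝ) := by
    exact_mod_cast pow_pos hq.pos _
  have h2 : ((q ^ a : ℕ) : ℝ) ≤ ((q ^ b : ℕ) : ℝ) := by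
    exact_mod_cast Nat.pow_le_pow_right hq.pos h
  have := one_div_le_one_div_of_le h1 h2
  linarith

/-- The covering rule. -/
theorem domT_of_cover {L : Type u} [Group L] [Finite L] (T : Finset ℕ) (hT : ∀ q ∈ T, q.Prime)
    {k : ℕ} (A : Fin k → Subgroup L) (hA : ∀ i, DomT (A i) T)
    (hsum : ∑ i, (Nat.card (A i) : ℝ) / (Nat.card (Subgroup.normalizer (A i : Set L)) : ℝ) ≤ 1)
    (hcov : ∀ x : L, (∀ q ∈ T, q ∣ orderOf x) → ∃ (i : Fin k) (g : L), g * x * g⁻¹ ∈ A i) :
    DomT L T := by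
  classical
  haveI := Fintype.ofFinite L
  set P := ∏ q ∈ T, (1 - 1 / ((q ^ (Nat.card L).factorization q : ℕ) : ℝ)) with hP
  have hP0 : 0 ≤ P := Finset.prod_nonneg (fun q hq => factor_nonneg (hT q hq) _)
  have hL : Nat.card L ≠ 0 := Nat.card_pos.ne'
  -- each subgroup
  have h1 : ∀ i, (AT (A i) T : ℝ) ≤ (Nat.card (A i) : ℝ) * P := by
    intro i
    refine (hA i).trans ?_
    apply mul_le_mul_of_nonneg_left _ (by positivity)
    apply Finset.prod_le_prod
    · intro q hq
      exact factor_nonneg (hT q hq) _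
    · intro q hq
      apply factor_mono (hT q hq)
      exact (Nat.factorization_le_iff_dvd Nat.card_pos.ne' hL).2
        (Subgroup.card_subgroup_dvd_card (A i)) q
  have h2 : ∀ i, (Nat.card {x : L // (∀ q ∈ T, q ∣ orderOf x) ∧ ∃ g : L, g * x * g⁻¹ ∈ A i} : ℝ)
      ≤ (Nat.card L : ℝ) * P *
        ((Nat.card (A i) : ℝ) / (Nat.card (Subgroup.normalizer (A i : Set L)) : ℝ)) := by
    intro i
    have h3 := card_conj_le (A i) T
    have hn : (0 : ℝ) < (Nat.card (Subgroup.normalizer (A i : Set L)) : ℝ) := by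
      exact_mod_cast Nat.card_pos
    have h4 : (Nat.card {x : L // (∀ q ∈ T, q ∣ orderOf x) ∧ ∃ g : L, g * x * g⁻¹ ∈ A i} : ℝ) *
        (Nat.card (Subgroup.normalizer (A i : Set L)) : ℝ) ≤ (Nat.card L : ℝ) * (AT (A i) T : ℝ) := by
      exact_mod_cast h3
    have h5 : (Nat.card L : ℝ) * (AT (A i) T : ℝ) ≤
        (Nat.card L : ℝ) * ((Nat.card (A i) : ℝ) * P) :=
      mul_le_mul_of_nonneg_left (h1 i) (by positivity)
    rw [mul_div_assoc', le_div_iff₀ hn]
    calc _ ≤ _ := h4
      _ ≤ _ := h5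
      _ = _ := by ring
  have h3 : (AT L T : ℝ) ≤
      ∑ i, (Nat.card {x : L // (∀ q ∈ T, q ∣ orderOf x) ∧ ∃ g : L, g * x * g⁻¹ ∈ A i} : ℝ) := by
    have h4 : AT L T ≤
        ∑ i, Nat.card {x : L // (∀ q ∈ T, q ∣ orderOf x) ∧ ∃ g : L, g * x * g⁻¹ ∈ A i} := by
      have h5 : ∀ i, Nat.card {x : L // (∀ q ∈ T, q ∣ orderOf x) ∧ ∃ g : L, g * x * g⁻¹ ∈ A i} =
          #{x : L | (∀ q ∈ T, q ∣ orderOf x) ∧ ∃ g : L, g * x * g⁻¹ ∈ A i} := by
        intro i
        rw [Nat.card_eq_fintype_card, Fintype.card_subtype]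
      rw [Finset.sum_congr rfl (fun i _ => h5 i), AT_eq]
      refine (Finset.card_le_card (t := Finset.univ.biUnion (fun i : Fin k =>
        Finset.univ.filter (fun x : L => (∀ q ∈ T, q ∣ orderOf x) ∧
          ∃ g : L, g * x * g⁻¹ ∈ A i))) ?_).trans Finset.card_biUnion_le
      intro x hx
      simp only [mem_filter, mem_univ, true_and] at hx
      obtain ⟨i, g, hg⟩ := hcov x hx
      simp only [mem_biUnion, mem_filter, mem_univ, true_and]
      exact ⟨i, hx, g, hg⟩
    exact_mod_cast h4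
  unfold DomT
  calc (AT L T : ℝ) ≤ _ := h3
    _ ≤ ∑ i, (Nat.card L : ℝ) * P *
        ((Nat.card (A i) : ℝ) / (Nat.card (Subgroup.normalizer (A i : Set L)) : ℝ)) :=
      Finset.sum_le_sum (fun i _ => h2 i)
    _ = (Nat.card L : ℝ) * P *
        ∑ i, (Nat.card (A i) : ℝ) / (Nat.card (Subgroup.normalizer (A i : Set L)) : ℝ) := by
      rw [Finset.mul_sum]
    _ ≤ (Nat.card L : ℝ) * P * 1 := mul_le_mul_of_nonneg_left hsum (by positivity)
    _ = _ := by rw [mul_one]

/-- Frobenius: domination for sets with at most one prime. -/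
theorem domT_small {L : Type u} [Group L] [Finite L] (T : Finset ℕ) (hT : ∀ q ∈ T, q.Prime)
    (h : #T ≤ 1) : DomT L T := by
  classical
  haveI := Fintype.ofFinite L
  rcases Finset.card_le_one_iff_subset_singleton.1 h with ⟨p, hp⟩
  rcases Finset.subset_singleton_iff.1 hp with rfl | rfl
  · unfold DomT
    have : AT L ∅ ≤ Nat.card L := by
      unfold AT
      exact Finite.card_subtype_le _
    simp only [prod_empty, mul_one]
    exact_mod_cast this
  · have hpp : p.Prime := hT p (Finset.mem_singleton_self p)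
    unfold DomT
    have h1 : (AT L {p} : ℝ) = (Nat.card L : ℝ) - (NT L {p} : ℝ) := by
      rw [AT_ie]
      have h2 : NT L ∅ = Nat.card L := by
        unfold NT
        refine Nat.card_congr (Equiv.subtypeUnivEquiv ?_)
        intro x q hq
        simp at hq
      have h3 : ({p} : Finset ℕ).powerset = {∅, {p}} := by
        ext s
        simp only [mem_powerset, mem_insert, mem_singleton, Finset.subset_singleton_iff]
      rw [h3, Finset.sum_insert (by simp [eq_comm]), Finset.sum_singleton, h2]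
      simp
      ring
    rw [h1, Finset.prod_singleton]
    have h4 := dvd_NT (G := L) p hpp
    have h5 : 0 < NT L {p} := by
      unfold NT
      haveI : Nonempty {x : L // ∀ q ∈ ({p} : Finset ℕ), ¬ q ∣ orderOf x} :=
        ⟨⟨1, by
          intro q hq
          rw [mem_singleton] at hq
          rw [hq, orderOf_one, Nat.dvd_one]
          exact hpp.one_lt.ne'⟩⟩
      exact Nat.card_pos
    have h6 : ordCompl[p] (Nat.card L) ≤ NT L {p} := Nat.le_of_dvd h5 h4
    have h7 : (Nat.card L : ℝ) =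
        ((p ^ (Nat.card L).factorization p : ℕ) : ℝ) * ((ordCompl[p] (Nat.card L) : ℕ) : ℝ) := by
      exact_mod_cast (Nat.ordProj_mul_ordCompl_eq_self (Nat.card L) p).symm
    have h8 : (0 : ℝ) < ((p ^ (Nat.card L).factorization p : ℕ) : ℝ) := by
      exact_mod_cast pow_pos hpp.pos _
    have h9 : (Nat.card L : ℝ) * (1 - 1 / ((p ^ (Nat.card L).factorization p : ℕ) : ℝ)) =
        (Nat.card L : ℝ) - ((ordCompl[p] (Nat.card L) : ℕ) : ℝ) := by
      conv_lhs => rw [h7]
      conv_rhs => rw [h7]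
      field_simp
    rw [h9]
    have h10 : ((ordCompl[p] (Nat.card L) : ℕ) : ℝ) ≤ (NT L {p} : ℝ) := by exact_mod_cast h6
    linarith

end Pool.Y789.OP
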