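import Pool.Agent.Y789.OP.Sums

set_option autoImplicit false

/-!
A theorem of Frobenius: the number of elements of order prime to `p` is divisible by the
part of the group order prime to `p`.
-/

namespace Pool.Y789.OP

open Finset

universe u

/-- Number of elements of `q`-power order. -/
noncomputable def NP (H : Type*) [Group H] (q : ℕ) : ℕ :=
  Nat.card {x : H // ∃ j : ℕ, x ^ q ^ j = 1}

lemma NP_congr {H K : Type*} [Group H] [Group K] (e : H ≃* K) (q : ℕ) : NP H q = NP K q := by
  unfold NP
  refine Nat.card_congr (e.toEquiv.subtypeEquiv ?_)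
  intro x
  have : ∀ j : ℕ, (e.toEquiv x) ^ q ^ j = 1 ↔ x ^ q ^ j = 1 := by
    intro j
    have h1 : (e.toEquiv x) ^ q ^ j = e (x ^ q ^ j) := by
      rw [map_pow]; rfl
    rw [h1]
    exact e.map_eq_one_iff
  simp only [this]

/-- Divisibility of sums of class functions. -/
lemma dvd_class_sum {H : Type*} [Group H] [Fintype H] [DecidableEq H] (S : Finset H)
    (hS : ∀ u ∈ S, ∀ g : H, g * u * g⁻¹ ∈ S) (f : H → ℕ)
    (hf : ∀ u g : H, f (g * u * g⁻¹) = f u) (N : ℕ)
    (hN : ∀ u ∈ S, N ∣ Nat.card H / Nat.card (Subgroup.centralizer {u}) * f u) :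
    N ∣ ∑ u ∈ S, f u := by
  classical
  rw [← Finset.sum_fiberwise_of_maps_to (t := S.image ConjClasses.mk) (g := ConjClasses.mk)
    (fun u hu => Finset.mem_image_of_mem _ hu)]
  apply Finset.dvd_sum
  intro c hc
  obtain ⟨u, hu, rfl⟩ := Finset.mem_image.1 hc
  have h1 : ∀ v ∈ S.filter (fun v => ConjClasses.mk v = ConjClasses.mk u), f v = f u := by
    intro v hv
    rw [mem_filter, ConjClasses.mk_eq_mk_iff_isConj, isConj_iff] at hv
    obtain ⟨-, g, rfl⟩ := hv
    rw [hf]
  rw [Finset.sum_congr rfl h1, Finset.sum_const, smul_eq_mul]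
  have h2 : #(S.filter (fun v => ConjClasses.mk v = ConjClasses.mk u)) =
      Nat.card H / Nat.card (Subgroup.centralizer {u}) := by
    have h3 := ConjClasses.card_carrier u
    rw [Subgroup.nat_card_centralizer_nat_card_stabilizer, Nat.card_eq_fintype_card,
      Nat.card_eq_fintype_card, ← h3, ← Set.toFinset_card]
    congr 1
    ext v
    simp only [mem_filter, Set.mem_toFinset, ConjClasses.mem_carrier_iff_mk_eq]
    constructor
    · exact fun h => h.2
    · intro h
      refine ⟨?_, h⟩
      rw [eq_comm, ConjClasses.mk_eq_mk_iff_isConj, isConj_iff] at h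
      obtain ⟨g, rfl⟩ := h
      exact hS u hu g
  rw [h2]
  exact hN u hu

/-- The decomposition of an element into its `q`-part and its `q'`-part. -/
lemma card_fiber_part {H : Type*} [Group H] [Finite H] (q : ℕ) (hq : q.Prime) (a m k : ℕ)
    (ha : ∀ x : H, x ^ (q ^ a * m) = 1) (hk1 : k ≡ 1 [MOD m]) (hk2 : k ≡ 0 [MOD q ^ a])
    (hqm : Nat.Coprime q m) (u : H) (hu : u ^ m = 1) :
    Nat.card {x : H // x ^ k = u} = NP (Subgroup.centralizer {u}) q := by
  have hcop : Nat.Coprime (q ^ a) m := Nat.Coprime.pow_left _ hqm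
  obtain ⟨l, hl1, hl2⟩ := Nat.chineseRemainder hcop 1 0
  -- `l ≡ 1 mod q ^ a`, `l ≡ 0 mod m`
  have hkl : ∀ x : H, x ^ k * x ^ l = x := by
    intro x
    rw [← pow_add]
    have h1 : k + l ≡ 1 [MOD (q ^ a * m)] := by
      rw [← Nat.modEq_and_modEq_iff_modEq_mul hcop]
      constructor
      · simpa using hk2.add hl1
      · simpa using hk1.add hl2
    have h2 : orderOf x ∣ q ^ a * m := orderOf_dvd_of_pow_eq_one (ha x)
    conv_rhs => rw [← pow_one x]
    rw [pow_eq_pow_iff_modEq]
    exact h1.of_dvd h2
  have huk : u ^ k = u := by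
    conv_rhs => rw [← pow_one u]
    rw [pow_eq_pow_iff_modEq]
    exact hk1.of_dvd (orderOf_dvd_of_pow_eq_one hu)
  have hul : u ^ l = 1 := by
    obtain ⟨c, hc⟩ := Nat.modEq_zero_iff_dvd.1 hl2
    rw [hc, pow_mul, hu, one_pow]
  have hvq : ∀ v : H, (∃ j : ℕ, v ^ q ^ j = 1) → v ^ q ^ a = 1 := by
    rintro v ⟨j, hj⟩
    have h3 : orderOf v ∣ q ^ a * m := orderOf_dvd_of_pow_eq_one (ha _)
    have h4 : Nat.Coprime (orderOf v) m :=
      Nat.Coprime.coprime_dvd_left (orderOf_dvd_of_pow_eq_one hj) (Nat.Coprime.pow_left _ hqm)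
    exact orderOf_dvd_iff_pow_eq_one.1 (h4.dvd_of_dvd_mul_right h3)
  have hvk : ∀ v : H, v ^ q ^ a = 1 → v ^ k = 1 := by
    intro v hv
    obtain ⟨c, hc⟩ := Nat.modEq_zero_iff_dvd.1 hk2
    rw [hc, pow_mul, hv, one_pow]
  have hvl : ∀ v : H, v ^ q ^ a = 1 → v ^ l = v := by
    intro v hv
    conv_rhs => rw [← pow_one v]
    rw [pow_eq_pow_iff_modEq]
    exact hl1.of_dvd (orderOf_dvd_of_pow_eq_one hv)
  have hcen : ∀ x : H, x ^ k = u → x ^ l ∈ Subgroup.centralizer {u} := by
    intro x hx
    rw [Subgroup.mem_centralizer_singleton_iff, ← hx, ← pow_add, ← pow_add, add_comm]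
  have hcomm : ∀ v : Subgroup.centralizer ({u} : Set H), Commute u (v : H) := by
    intro v
    have := v.2
    rw [Subgroup.mem_centralizer_singleton_iff] at this
    exact this.symm
  have hval : ∀ v : Subgroup.centralizer ({u} : Set H), ∀ j : ℕ, v ^ q ^ j = 1 ↔
      (v : H) ^ q ^ j = 1 := by
    intro v j
    rw [← Subtype.val_inj]
    simp
  unfold NP
  refine Nat.card_congr
    { toFun := fun x => ⟨⟨x.1 ^ l, hcen x.1 x.2⟩, a, ?_⟩
      invFun := fun v => ⟨u * (v.1 : H), ?_⟩
      left_inv := ?_
      right_inv := ?_ }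
  · rw [hval]
    obtain ⟨c, hc⟩ := Nat.modEq_zero_iff_dvd.1 hl2
    simp only
    rw [hc, ← pow_mul]
    have : m * c * q ^ a = (q ^ a * m) * c := by ring
    rw [this, pow_mul, ha, one_pow]
  · have hv := v.2
    simp only [hval] at hv
    rw [(hcomm v.1).mul_pow, huk, hvk _ (hvq _ hv), mul_one]
  · rintro ⟨x, hx⟩
    apply Subtype.ext
    simp only
    conv_lhs => rw [← hx]
    exact hkl x
  · intro v
    have hv := v.2
    simp only [hval] at hv
    apply Subtype.ext
    apply Subtype.ext
    simp only
    rw [(hcomm v.1).mul_pow, hul, hvl _ (hvq _ hv), one_mul]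

/-- Counting through the `q'`-part. -/
lemma card_eq_sum_part {H : Type*} [Group H] [Fintype H] [DecidableEq H] (q : ℕ) (hq : q.Prime)
    (k : ℕ) (a m : ℕ) (ha : ∀ x : H, x ^ (q ^ a * m) = 1) (hk1 : k ≡ 1 [MOD m])
    (hk2 : k ≡ 0 [MOD q ^ a]) (hqm : Nat.Coprime q m)
    (S : Finset H) (hS : ∀ u ∈ S, u ^ m = 1) :
    #{x : H | x ^ k ∈ S} = ∑ u ∈ S, NP (Subgroup.centralizer {u}) q := by
  rw [Finset.card_eq_sum_card_fiberwise (f := fun x : H => x ^ k) (t := S)
    (fun x hx => by simpa using hx)]
  apply Finset.sum_congr rfl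
  intro u hu
  rw [← card_fiber_part q hq a m k ha hk1 hk2 hqm u (hS u hu), Nat.card_eq_fintype_card,
    Fintype.card_subtype]
  congr 1
  ext x
  simp only [mem_filter, mem_univ, true_and]
  constructor
  · exact fun h => h.2
  · intro h
    exact ⟨h ▸ hu, h⟩

lemma NP_centralizer_conj {H : Type*} [Group H] (q : ℕ) (u g : H) :
    NP (Subgroup.centralizer {g * u * g⁻¹}) q = NP (Subgroup.centralizer {u}) q := by
  symm
  have h1 : (Subgroup.centralizer {u}).map (MulAut.conj g).toMonoidHom =
      Subgroup.centralizer {g * u * g⁻¹} := by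
    ext x
    rw [Subgroup.mem_map, Subgroup.mem_centralizer_singleton_iff]
    constructor
    · rintro ⟨y, hy, rfl⟩
      rw [Subgroup.mem_centralizer_singleton_iff] at hy
      simp only [MulEquiv.coe_toMonoidHom, MulAut.conj_apply]
      calc g * y * g⁻¹ * (g * u * g⁻¹) = g * (y * u) * g⁻¹ := by group
        _ = g * (u * y) * g⁻¹ := by rw [hy]
        _ = g * u * g⁻¹ * (g * y * g⁻¹) := by group
    · intro hx
      refine ⟨g⁻¹ * x * g, ?_, ?_⟩
      · rw [Subgroup.mem_centralizer_singleton_iff]
        calc g⁻¹ * x * g * u = g⁻¹ * (x * (g * u * g⁻¹)) * g := by group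
          _ = g⁻¹ * ((g * u * g⁻¹) * x) * g := by rw [hx]
          _ = u * (g⁻¹ * x * g) := by group
      · simp only [MulEquiv.coe_toMonoidHom, MulAut.conj_apply]
        group
  rw [← h1]
  exact NP_congr ((Subgroup.centralizer {u}).equivMapOfInjective _ (MulAut.conj g).injective) q

/-- The index times the Sylow divisor. -/
lemma dvd_index_mul {H : Type*} [Group H] [Finite H] (q : ℕ) (K : Subgroup H) (c : ℕ)
    (hc : q ^ (Nat.card K).factorization q ∣ c) :
    q ^ (Nat.card H).factorization q ∣ Nat.card H / Nat.card K * c := by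
  have h1 : Nat.card H = Nat.card K * (Nat.card H / Nat.card K) :=
    (Nat.mul_div_cancel' (Subgroup.card_subgroup_dvd_card K)).symm
  have h0 : Nat.card H ≠ 0 := Nat.card_pos.ne'
  have hK0 : Nat.card K ≠ 0 := Nat.card_pos.ne'
  have hd0 : Nat.card H / Nat.card K ≠ 0 := by
    intro h
    rw [h, mul_zero] at h1
    exact h0 h1
  have h2 : (Nat.card H).factorization q =
      (Nat.card H / Nat.card K).factorization q + (Nat.card K).factorization q := by
    conv_lhs => rw [h1]
    rw [Nat.factorization_mul hK0 hd0, Finsupp.add_apply, add_comm]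
  rw [h2, pow_add]
  exact mul_dvd_mul (Nat.ordProj_dvd _ _) hc

/-- The number of elements of `q`-power order is divisible by the `q`-part of the order. -/
theorem dvd_NP (q : ℕ) (hq : q.Prime) : ∀ (n : ℕ) (H : Type u) [Group H] [Finite H],
    Nat.card H = n → q ^ n.factorization q ∣ NP H q := by
  intro n
  induction n using Nat.strong_induction_on with
  | _ n ih =>
    intro H _ _ hn
    classical
    haveI := Fintype.ofFinite H
    have hn0 : n ≠ 0 := hn ▸ Nat.card_pos.ne'
    set a := n.factorization q with hadef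
    set m := ordCompl[q] n with hm
    have hnm : q ^ a * m = n := Nat.ordProj_mul_ordCompl_eq_self n q
    have hqm : Nat.Coprime q m := Nat.coprime_ordCompl hq hn0
    have hcop : Nat.Coprime m (q ^ a) := (Nat.Coprime.pow_left _ hqm).symm
    obtain ⟨k, hk1, hk2⟩ := Nat.chineseRemainder hcop 1 0
    have ha : ∀ x : H, x ^ (q ^ a * m) = 1 := by
      intro x; rw [hnm, ← hn]; exact pow_card_eq_one'
    -- all elements
    set S : Finset H := Finset.univ.filter (fun u => u ^ m = 1) with hSdef
    have hS : ∀ u ∈ S, u ^ m = 1 := by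
      intro u hu; simpa [hSdef] using hu
    have hall : #{x : H | x ^ k ∈ S} = n := by
      have : Finset.univ.filter (fun x : H => x ^ k ∈ S) = Finset.univ := by
        rw [Finset.filter_eq_self]
        intro x _
        simp only [hSdef, mem_filter, mem_univ, true_and]
        obtain ⟨c, hc⟩ := Nat.modEq_zero_iff_dvd.1 hk2
        rw [hc, ← pow_mul]
        have : q ^ a * c * m = (q ^ a * m) * c := by ring
        rw [this, pow_mul, ha, one_pow]
      rw [this, Finset.card_univ, ← Nat.card_eq_fintype_card, hn]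
    have hsum := card_eq_sum_part q hq k a m ha hk1 hk2 hqm S hS
    rw [hall] at hsum
    -- split into central and noncentral elements
    rw [← Finset.sum_filter_add_sum_filter_not S (fun u => u ∈ Subgroup.center H)] at hsum
    have hnc : q ^ a ∣ ∑ u ∈ S.filter (fun u => u ∉ Subgroup.center H),
        NP (Subgroup.centralizer {u}) q := by
      apply dvd_class_sum (S.filter (fun u => u ∉ Subgroup.center H)) _
        (fun u => NP (Subgroup.centralizer {u}) q) (fun u g => NP_centralizer_conj q u g)
      · intro u hu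
        rw [hadef, ← hn]
        apply dvd_index_mul
        rw [mem_filter] at hu
        have hlt : Nat.card (Subgroup.centralizer {u}) < n := by
          rw [← hn]
          apply lt_of_le_of_ne (Subgroup.card_le_card_group _)
          intro h
          have h1 : Subgroup.centralizer {u} = ⊤ := Subgroup.eq_top_of_card_eq _ h
          apply hu.2
          rw [Subgroup.mem_center_iff]
          intro g
          have : g ∈ Subgroup.centralizer ({u} : Set H) := h1 ▸ Subgroup.mem_top g
          rw [Subgroup.mem_centralizer_singleton_iff] at this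
          exact this
        exact ih _ hlt _ rfl
      · intro u hu g
        rw [mem_filter] at hu ⊢
        refine ⟨?_, ?_⟩
        · simp only [hSdef, mem_filter, mem_univ, true_and]
          rw [conj_pow, hS u hu.1]; simp
        · intro hg
          apply hu.2
          have h3 := (inferInstance : (Subgroup.center H).Normal).conj_mem _ hg g⁻¹
          have h4 : g⁻¹ * (g * u * g⁻¹) * g⁻¹⁻¹ = u := by group
          rwa [h4] at h3
    have hcen : ∑ u ∈ S.filter (fun u => u ∈ Subgroup.center H),
        NP (Subgroup.centralizer {u}) q =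
        #(S.filter (fun u => u ∈ Subgroup.center H)) * NP H q := by
      rw [Finset.sum_const_nat]
      intro u hu
      rw [mem_filter] at hu
      have h1 : Subgroup.centralizer ({u} : Set H) = ⊤ := by
        rw [Subgroup.centralizer_eq_top_iff_subset]
        simpa using hu.2
      rw [h1]
      exact NP_congr Subgroup.topEquiv q
    rw [hcen] at hsum
    have hdvd : q ^ a ∣ #(S.filter (fun u => u ∈ Subgroup.center H)) * NP H q := by
      have h1 : q ^ a ∣ n := Nat.ordProj_dvd n q
      rw [hsum] at h1
      exact (Nat.dvd_add_left hnc).1 h1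
    have hcop2 : Nat.Coprime (q ^ a) #(S.filter (fun u => u ∈ Subgroup.center H)) := by
      apply Nat.Coprime.pow_left
      rw [Nat.Prime.coprime_iff_not_dvd hq]
      intro hd
      let Z : Subgroup H :=
        { carrier := {z | z ∈ Subgroup.center H ∧ z ^ m = 1}
          one_mem' := ⟨Subgroup.one_mem _, one_pow _⟩
          mul_mem' := by
            rintro x y ⟨hx1, hx2⟩ ⟨hy1, hy2⟩
            refine ⟨Subgroup.mul_mem _ hx1 hy1, ?_⟩
            have : Commute x y := ((Subgroup.mem_center_iff.1 hx1) y).symm
            rw [this.mul_pow, hx2, hy2, one_mul]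
          inv_mem' := by
            rintro x ⟨hx1, hx2⟩
            refine ⟨Subgroup.inv_mem _ hx1, ?_⟩
            rw [inv_pow, hx2, inv_one] }
      have hZ : Nat.card Z = #(S.filter (fun u => u ∈ Subgroup.center H)) := by
        have : Nat.card Z = Nat.card {z : H // z ∈ Subgroup.center H ∧ z ^ m = 1} := rfl
        rw [this, Nat.card_eq_fintype_card, Fintype.card_subtype]
        congr 1
        ext z
        simp only [hSdef, mem_filter, mem_univ, true_and]
        tauto
      haveI := Fact.mk hq
      rw [← hZ] at hd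
      obtain ⟨z, hz⟩ := exists_prime_orderOf_dvd_card' q hd
      have h5 : (z : H) ^ m = 1 := z.2.2
      have h6 : orderOf (z : H) = q := by rw [Subgroup.orderOf_coe]; exact hz
      have h7 : q ∣ m := by rw [← h6]; exact orderOf_dvd_of_pow_eq_one h5
      exact (Nat.Prime.coprime_iff_not_dvd hq).1 hqm h7
    exact hcop2.dvd_of_dvd_mul_left hdvd

/-- Frobenius: the number of `p`-regular elements is divisible by the `p'`-part of the order. -/
theorem dvd_NT {G : Type u} [Group G] [Finite G] (p : ℕ) (hp : p.Prime) :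
    ordCompl[p] (Nat.card G) ∣ NT G {p} := by
  classical
  haveI := Fintype.ofFinite G
  set n := Nat.card G with hn
  have hn0 : n ≠ 0 := Nat.card_pos.ne'
  -- prime by prime
  have hkey : ∀ q : ℕ, q.Prime → q ≠ p → q ^ n.factorization q ∣ NT G {p} := by
    intro q hq hqp
    set a := n.factorization q with hadef
    set m := ordCompl[q] n with hm
    have hnm : q ^ a * m = n := Nat.ordProj_mul_ordCompl_eq_self n q
    have hqm : Nat.Coprime q m := Nat.coprime_ordCompl hq hn0
    have hcop : Nat.Coprime m (q ^ a) := (Nat.Coprime.pow_left _ hqm).symm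
    obtain ⟨k, hk1, hk2⟩ := Nat.chineseRemainder hcop 1 0
    have ha : ∀ x : G, x ^ (q ^ a * m) = 1 := by
      intro x; rw [hnm, hn]; exact pow_card_eq_one'
    set S : Finset G := Finset.univ.filter (fun u => u ^ m = 1 ∧ ¬ p ∣ orderOf u) with hSdef
    have hS : ∀ u ∈ S, u ^ m = 1 := by
      intro u hu
      simp only [hSdef, mem_filter, mem_univ, true_and] at hu
      exact hu.1
    have h1 : NT G {p} = #{x : G | x ^ k ∈ S} := by
      rw [NT_eq]
      congr 1
      ext x
      simp only [hSdef, mem_filter, mem_univ, true_and, mem_singleton, forall_eq]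
      have h2 : (x ^ k) ^ m = 1 := by
        obtain ⟨c, hc⟩ := Nat.modEq_zero_iff_dvd.1 hk2
        rw [hc, ← pow_mul]
        have : q ^ a * c * m = (q ^ a * m) * c := by ring
        rw [this, pow_mul, ha, one_pow]
      constructor
      · intro hx
        exact ⟨h2, fun hd => hx (hd.trans (orderOf_pow_dvd k))⟩
      · rintro ⟨-, hx⟩ hd
        apply hx
        -- `p` divides the order of `x`, hence the order of its `q'`-part
        have h3 : x ^ (orderOf (x ^ k) * q ^ a) = 1 := by
          -- `x ^ (o * q ^ a)`: exponent is `0` modulo `q ^ a`, and `o * q ^ a * k` kills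
          have h4 : x ^ (k * orderOf (x ^ k)) = 1 := by
            rw [pow_mul]; exact pow_orderOf_eq_one _
          have h5 : orderOf x ∣ k * orderOf (x ^ k) := orderOf_dvd_of_pow_eq_one h4
          have h6 : orderOf x ∣ q ^ a * m := orderOf_dvd_of_pow_eq_one (ha x)
          apply orderOf_dvd_iff_pow_eq_one.1
          -- `orderOf x` divides `q ^ a * gcd(m, orderOf ...)`
          have h7 : orderOf x ∣ orderOf x := dvd_rfl
          have h8 : orderOf x = Nat.gcd (orderOf x) (q ^ a) * Nat.gcd (orderOf x) m := by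
            have := Nat.Coprime.gcd_mul (orderOf x) hcop.symm
            rw [← this]
            exact (Nat.gcd_eq_left h6).symm
          have h9 : Nat.gcd (orderOf x) m ∣ orderOf (x ^ k) := by
            have h10 : Nat.gcd (orderOf x) m ∣ k * orderOf (x ^ k) :=
              (Nat.gcd_dvd_left _ _).trans h5
            have h11 : Nat.Coprime (Nat.gcd (orderOf x) m) k := by
              apply Nat.Coprime.coprime_dvd_left (Nat.gcd_dvd_right _ _)
              have h12 : Nat.gcd k m = Nat.gcd 1 m := hk1.gcd_eq
              rw [Nat.Coprime, Nat.gcd_comm, h12, Nat.gcd_one_left]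
            exact h11.dvd_of_dvd_mul_left h10
          rw [h8, mul_comm]
          exact mul_dvd_mul h9 (Nat.gcd_dvd_right _ _)
        have h4 : p ∣ orderOf (x ^ k) * q ^ a := hd.trans (orderOf_dvd_of_pow_eq_one h3)
        rcases hp.dvd_mul.1 h4 with h5 | h5
        · exact h5
        · exact absurd ((Nat.prime_dvd_prime_iff_eq hp hq).1 (hp.dvd_of_dvd_pow h5)) hqp.symm
    rw [h1, card_eq_sum_part q hq k a m ha hk1 hk2 hqm S hS]
    apply dvd_class_sum S _ (fun u => NP (Subgroup.centralizer {u}) q)
      (fun u g => NP_centralizer_conj q u g)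
    · intro u _
      rw [hadef, hn]
      apply dvd_index_mul
      exact dvd_NP q hq _ _ rfl
    · intro u hu g
      simp only [hSdef, mem_filter, mem_univ, true_and] at hu ⊢
      refine ⟨?_, ?_⟩
      · rw [conj_pow, hu.1]; simp
      · have h13 : orderOf (g * u * g⁻¹) = orderOf u := by
          have := orderOf_injective (MulAut.conj g).toMonoidHom (MulAut.conj g).injective u
          simpa using this
        rw [h13]; exact hu.2
  -- assemble
  have hfac : ordCompl[p] n = ∏ q ∈ n.primeFactors.erase p, q ^ n.factorization q := by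
    have h4 : n = ∏ q ∈ n.primeFactors, q ^ n.factorization q :=
      (Nat.prod_factorization_pow_eq_self hn0).symm
    by_cases hpn : p ∈ n.primeFactors
    · have h5 : p ^ n.factorization p * ordCompl[p] n =
          p ^ n.factorization p * ∏ q ∈ n.primeFactors.erase p, q ^ n.factorization q := by
        rw [Nat.ordProj_mul_ordCompl_eq_self]
        rw [Finset.mul_prod_erase n.primeFactors (fun q => q ^ n.factorization q) hpn]
        exact h4
      exact Nat.eq_of_mul_eq_mul_left (pow_pos hp.pos _) h5
    · have h5 : n.factorization p = 0 := by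
        rw [← Finsupp.notMem_support_iff, Nat.support_factorization]
        exact hpn
      rw [Finset.erase_eq_of_notMem hpn, h5, pow_zero, Nat.div_one]
      exact h4
  rw [hfac]
  apply Finset.prod_dvd_of_isRelPrime
  · intro b hb c hc hbc
    rw [Function.onFun, ← Nat.coprime_iff_isRelPrime]
    refine Nat.Coprime.pow _ _ ((Nat.coprime_primes ?_ ?_).2 hbc)
    · exact Nat.prime_of_mem_primeFactors (Finset.mem_of_mem_erase hb)
    · exact Nat.prime_of_mem_primeFactors (Finset.mem_of_mem_erase hc)
  · intro q hq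
    exact hkey q (Nat.prime_of_mem_primeFactors (Finset.mem_of_mem_erase hq))
      (Finset.ne_of_mem_erase hq)

end Pool.Y789.OP
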