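import Pool.Agent.Y789.OP.Cover

set_option autoImplicit false

/-!
Domination for direct products.
-/

namespace Pool.Y789.OP

open Finset

universe u v

lemma dvd_order_prod {G : Type u} {H : Type v} [Group G] [Group H] {q : ℕ}
    (hq : q.Prime) (x : G) (y : H) :
    q ∣ orderOf (x, y) ↔ q ∣ orderOf x ∨ q ∣ orderOf y := by
  rw [Prod.orderOf_mk]
  constructor
  · intro h
    have h1 : q ∣ orderOf x * orderOf y := h.trans (Nat.lcm_dvd_mul _ _)
    exact hq.dvd_mul.1 h1
  · rintro (h | h)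
    · exact h.trans (Nat.dvd_lcm_left _ _)
    · exact h.trans (Nat.dvd_lcm_right _ _)

/-- Direct products. -/
theorem prop1_prod {G : Type u} {H : Type v} [Group G] [Finite G] [Group H] [Finite H]
    (hG : Prop1 G) (hH : Prop1 H) : Prop1 (G × H) := by
  classical
  haveI := Fintype.ofFinite G
  haveI := Fintype.ofFinite H
  intro T hT
  set t : ℕ → ℝ := fun q => 1 / ((q ^ (Nat.card H).factorization q : ℕ) : ℝ) with ht
  have ht0 : ∀ q, 0 ≤ t q := fun q => by simp only [ht]; positivity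
  have ht1 : ∀ q ∈ T, 0 ≤ 1 - t q := fun q hq => factor_nonneg (hT q hq) _
  have hG0 : Nat.card G ≠ 0 := Nat.card_pos.ne'
  have hH0 : Nat.card H ≠ 0 := Nat.card_pos.ne'
  -- fibration over `G`
  have h1 : AT (G × H) T = ∑ x : G, AT H (T.filter (fun q => ¬ q ∣ orderOf x)) := by
    rw [AT_eq, Finset.card_eq_sum_card_fiberwise (f := fun z : G × H => z.1) (t := univ)
      (fun x _ => by simp)]
    apply Finset.sum_congr rfl
    intro x _
    rw [AT_eq]
    symm
    refine Finset.card_bij (fun y _ => (x, y)) ?_ ?_ ?_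
    · intro y hy
      simp only [mem_filter, mem_univ, true_and] at hy ⊢
      refine ⟨?_, trivial⟩
      intro q hq
      rw [dvd_order_prod (hT q hq)]
      by_cases h : q ∣ orderOf x
      · exact Or.inl h
      · exact Or.inr (hy q ⟨hq, h⟩)
    · intro y _ y' _ h
      exact (Prod.mk.inj h).2
    · rintro ⟨x', y⟩ hz
      simp only [mem_filter, mem_univ, true_and] at hz
      obtain ⟨hz1, hz2⟩ := hz
      subst hz2
      refine ⟨y, ?_, rfl⟩
      simp only [mem_filter, mem_univ, true_and]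
      rintro q ⟨hq, hqx⟩
      rcases (dvd_order_prod (hT q hq) _ _).1 (hz1 q hq) with h | h
      · exact absurd h hqx
      · exact h
  have h2 : ∀ x : G, (AT H (T.filter (fun q => ¬ q ∣ orderOf x)) : ℝ) ≤
      (Nat.card H : ℝ) * ∏ q ∈ T.filter (fun q => ¬ q ∣ orderOf x), (1 - t q) :=
    fun x => hH _ (fun q hq => hT q (Finset.mem_filter.1 hq).1)
  have h3 : ∀ x : G, ∏ q ∈ T.filter (fun q => ¬ q ∣ orderOf x), (1 - t q) =
      ∑ U ∈ T.powerset, ((∏ q ∈ U, t q) * ∏ q ∈ T \ U, (1 - t q)) *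
        (if ∀ q ∈ U, q ∣ orderOf x then (1 : ℝ) else 0) := by
    intro x
    have h4 : ∏ q ∈ T.filter (fun q => ¬ q ∣ orderOf x), (1 - t q) =
        ∏ q ∈ T, (t q * (if q ∣ orderOf x then (1 : ℝ) else 0) + (1 - t q)) := by
      rw [Finset.prod_filter]
      apply Finset.prod_congr rfl
      intro q _
      by_cases h : q ∣ orderOf x <;> simp [h]
    rw [h4, Finset.prod_add]
    apply Finset.sum_congr rfl
    intro U _
    rw [Finset.prod_mul_distrib, ite_prod]
    ring
  have h5 : (AT (G × H) T : ℝ) ≤ (Nat.card H : ℝ) *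
      ∑ U ∈ T.powerset, ((∏ q ∈ U, t q) * ∏ q ∈ T \ U, (1 - t q)) * (AT G U : ℝ) := by
    calc (AT (G × H) T : ℝ) = ∑ x : G, (AT H (T.filter (fun q => ¬ q ∣ orderOf x)) : ℝ) := by
          rw [h1]; push_cast; rfl
      _ ≤ ∑ x : G, (Nat.card H : ℝ) *
            ∑ U ∈ T.powerset, ((∏ q ∈ U, t q) * ∏ q ∈ T \ U, (1 - t q)) *
              (if ∀ q ∈ U, q ∣ orderOf x then (1 : ℝ) else 0) := by
          apply Finset.sum_le_sum
          intro x _
          rw [← h3 x]
          exact h2 x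
      _ = _ := by
          rw [← Finset.mul_sum, Finset.sum_comm]
          congr 1
          apply Finset.sum_congr rfl
          intro U _
          rw [← Finset.mul_sum]
          congr 1
          rw [AT_eq, Finset.card_filter]
          push_cast
          rfl
  have h6 : ∑ U ∈ T.powerset, ((∏ q ∈ U, t q) * ∏ q ∈ T \ U, (1 - t q)) * (AT G U : ℝ) ≤
      ∑ U ∈ T.powerset, ((∏ q ∈ U, t q) * ∏ q ∈ T \ U, (1 - t q)) *
        ((Nat.card G : ℝ) * ∏ q ∈ U, (1 - 1 / ((q ^ (Nat.card G).factorization q : ℕ) : ℝ))) := by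
    apply Finset.sum_le_sum
    intro U hU
    rw [mem_powerset] at hU
    apply mul_le_mul_of_nonneg_left
    · exact hG U (fun q hq => hT q (hU hq))
    · apply mul_nonneg
      · exact Finset.prod_nonneg (fun q _ => ht0 q)
      · exact Finset.prod_nonneg (fun q hq => ht1 q (Finset.sdiff_subset hq))
  have h7 : ∑ U ∈ T.powerset, ((∏ q ∈ U, t q) * ∏ q ∈ T \ U, (1 - t q)) *
        ((Nat.card G : ℝ) * ∏ q ∈ U, (1 - 1 / ((q ^ (Nat.card G).factorization q : ℕ) : ℝ))) =
      (Nat.card G : ℝ) * ∏ q ∈ T,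
        (1 - 1 / ((q ^ (Nat.card (G × H)).factorization q : ℕ) : ℝ)) := by
    have h8 : ∀ q ∈ T, (1 - 1 / ((q ^ (Nat.card (G × H)).factorization q : ℕ) : ℝ)) =
        t q * (1 - 1 / ((q ^ (Nat.card G).factorization q : ℕ) : ℝ)) + (1 - t q) := by
      intro q hq
      have hq0 : (0 : ℝ) < (q : ℝ) := by exact_mod_cast (hT q hq).pos
      rw [Nat.card_prod, Nat.factorization_mul hG0 hH0, Finsupp.add_apply]
      simp only [ht]
      push_cast
      rw [pow_add]
      field_simp
      ring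
    rw [Finset.prod_congr rfl h8, Finset.prod_add, Finset.mul_sum]
    apply Finset.sum_congr rfl
    intro U _
    rw [Finset.prod_mul_distrib]
    ring
  calc (AT (G × H) T : ℝ) ≤ _ := h5
    _ ≤ (Nat.card H : ℝ) * _ := mul_le_mul_of_nonneg_left h6 (by positivity)
    _ = _ := by
      rw [h7, Nat.card_prod]
      push_cast
      ring

end Pool.Y789.OP
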