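import Pool.Agent.Y789.OP.Basic

set_option autoImplicit false

/-!
The domination property passes from the quotient by a normal solvable subgroup to the group.
-/

namespace Pool.Y789.OP

open Finset

universe u

variable {G : Type u} [Group G] [Fintype G]

/-- The step: quotient by a normal `r`-subgroup. -/
lemma prop1_step {r : ℕ} (hr : r.Prime) (M : Subgroup G) [M.Normal] (hM : IsPGroup r M)
    (h : Prop1 (G ⧸ M)) : Prop1 G := by
  classical
  intro T hT
  haveI := Fact.mk hr
  obtain ⟨k, hk⟩ := IsPGroup.iff_card.1 hM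
  have hMc : Fintype.card M = r ^ k := by rw [← Nat.card_eq_fintype_card, hk]
  have hcard : Nat.card G = Nat.card (G ⧸ M) * r ^ k := by
    rw [← hk]
    exact Subgroup.card_eq_card_quotient_mul_card_subgroup M
  unfold Prop1 at h
  set l := Nat.card (G ⧸ M) with hl
  have hl0 : l ≠ 0 := Nat.card_pos.ne'
  have hr0 : r ^ k ≠ 0 := pow_ne_zero _ hr.ne_zero
  have hfq : ∀ q, q ≠ r → (Nat.card G).factorization q = l.factorization q := by
    intro q hq
    rw [hcard, Nat.factorization_mul hl0 hr0, hr.factorization_pow]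
    simp [hq.symm]
  have hfr : (Nat.card G).factorization r = l.factorization r + k := by
    rw [hcard, Nat.factorization_mul hl0 hr0, hr.factorization_pow]
    simp
  have hcR : (Nat.card G : ℝ) = (l : ℝ) * (r : ℝ) ^ k := by
    rw [hcard]; push_cast; ring
  by_cases hrT : r ∈ T
  · have h1 := AT_le_of_mem hr M hM T hT hrT
    have h2 := h T hT
    have h3 := h (T.erase r) (fun q hq => hT q (mem_of_mem_erase hq))
    rw [hMc] at h1
    have hk1 : 1 ≤ r ^ k := Nat.one_le_pow _ _ hr.pos
    have h1' : (AT G T : ℝ) ≤ AT (G ⧸ M) T + ((r : ℝ) ^ k - 1) * AT (G ⧸ M) (T.erase r) := by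
      have : (AT G T : ℝ) ≤ ((AT (G ⧸ M) T + (r ^ k - 1) * AT (G ⧸ M) (T.erase r) : ℕ) : ℝ) := by
        exact_mod_cast h1
      push_cast [Nat.cast_sub hk1] at this
      exact this
    have hprod : ∏ q ∈ T, (1 - 1 / ((q ^ l.factorization q : ℕ) : ℝ)) =
        (1 - 1 / ((r ^ l.factorization r : ℕ) : ℝ)) *
        ∏ q ∈ T.erase r, (1 - 1 / ((q ^ l.factorization q : ℕ) : ℝ)) :=
      (Finset.mul_prod_erase T _ hrT).symm
    have hprod2 : ∏ q ∈ T, (1 - 1 / ((q ^ (Nat.card G).factorization q : ℕ) : ℝ)) =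
        (1 - 1 / ((r ^ (l.factorization r + k) : ℕ) : ℝ)) *
        ∏ q ∈ T.erase r, (1 - 1 / ((q ^ l.factorization q : ℕ) : ℝ)) := by
      rw [← Finset.mul_prod_erase T _ hrT, hfr]
      congr 1
      apply Finset.prod_congr rfl
      intro q hq
      rw [hfq q (ne_of_mem_erase hq)]
    set P := ∏ q ∈ T.erase r, (1 - 1 / ((q ^ l.factorization q : ℕ) : ℝ)) with hP
    rw [hprod2, hcR]
    rw [hprod] at h2
    have hrk : (1 : ℝ) ≤ (r : ℝ) ^ k := by exact_mod_cast hk1
    have h4 : ((r : ℝ) ^ k - 1) * (AT (G ⧸ M) (T.erase r) : ℝ) ≤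
        ((r : ℝ) ^ k - 1) * ((l : ℝ) * P) := by
      apply mul_le_mul_of_nonneg_left h3
      linarith
    have hrpos : (0 : ℝ) < (r : ℝ) := by exact_mod_cast hr.pos
    have h5 : (l : ℝ) * ((1 - 1 / ((r ^ l.factorization r : ℕ) : ℝ)) * P) +
        ((r : ℝ) ^ k - 1) * ((l : ℝ) * P) =
        (l : ℝ) * (r : ℝ) ^ k * ((1 - 1 / ((r ^ (l.factorization r + k) : ℕ) : ℝ)) * P) := by
      push_cast
      rw [pow_add]
      field_simp
      ring
    linarith
  · have h1 := AT_le_of_notMem hr M hM T hT hrT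
    have h2 := h T hT
    rw [hMc] at h1
    have h1' : (AT G T : ℝ) ≤ (r : ℝ) ^ k * AT (G ⧸ M) T := by exact_mod_cast h1
    have hprod2 : ∏ q ∈ T, (1 - 1 / ((q ^ (Nat.card G).factorization q : ℕ) : ℝ)) =
        ∏ q ∈ T, (1 - 1 / ((q ^ l.factorization q : ℕ) : ℝ)) := by
      apply Finset.prod_congr rfl
      intro q hq
      rw [hfq q (fun e => hrT (e ▸ hq))]
    rw [hprod2, hcR]
    have hrk : (0 : ℝ) ≤ (r : ℝ) ^ k := by positivity
    calc (AT G T : ℝ) ≤ (r : ℝ) ^ k * AT (G ⧸ M) T := h1'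
      _ ≤ (r : ℝ) ^ k * ((l : ℝ) * ∏ q ∈ T, (1 - 1 / ((q ^ l.factorization q : ℕ) : ℝ))) :=
          mul_le_mul_of_nonneg_left h2 hrk
      _ = _ := by ring

/-- A nontrivial solvable normal subgroup contains a nontrivial normal subgroup of `G` which is
an `r`-group. -/
lemma exists_normal_pGroup (G : Type u) [Group G] [Finite G] (N : Subgroup G) [hN : N.Normal]
    [hs : Group.IsSolvable N] (hne : N ≠ ⊥) :
    ∃ (r : ℕ) (M : Subgroup G), r.Prime ∧ M.Normal ∧ IsPGroup r M ∧ M ≠ ⊥ ∧ M ≤ N := by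
  classical
  have hex : ∃ n, derivedSeries N n = ⊥ := hs.solvable
  set n := Nat.find hex with hn
  have hn1 : derivedSeries N n = ⊥ := Nat.find_spec hex
  have hn0 : n ≠ 0 := by
    intro h0
    rw [h0, derivedSeries_zero] at hn1
    apply hne
    rw [Subgroup.eq_bot_iff_forall]
    intro x hx
    have : (⟨x, hx⟩ : N) ∈ (⊥ : Subgroup N) := hn1 ▸ Subgroup.mem_top _
    exact congrArg Subtype.val (Subgroup.mem_bot.1 this)
  obtain ⟨m, hm⟩ := Nat.exists_eq_succ_of_ne_zero hn0
  have hm1 : derivedSeries N m ≠ ⊥ := Nat.find_min hex (by omega)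
  have hcomm : ⁅derivedSeries N m, derivedSeries N m⁆ = ⊥ := by
    rw [← derivedSeries_succ, ← Nat.succ_eq_add_one, ← hm]; exact hn1
  set A : Subgroup G := (derivedSeries N m).map N.subtype with hA
  haveI hAn : A.Normal := ConjAct.normal_of_characteristic_of_normal
  have hAN : A ≤ N := by
    rintro _ ⟨y, _, rfl⟩
    exact y.2
  have hAc : ∀ a ∈ A, ∀ b ∈ A, a * b = b * a := by
    rintro _ ⟨a, ha, rfl⟩ _ ⟨b, hb, rfl⟩
    rw [Subgroup.commutator_eq_bot_iff_le_centralizer] at hcomm
    have := Subgroup.mem_centralizer_iff.1 (hcomm hb) a ha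
    exact congrArg Subtype.val this
  have hAne : A ≠ ⊥ := by
    intro h
    apply hm1
    rw [Subgroup.eq_bot_iff_forall] at h ⊢
    intro x hx
    exact Subtype.ext (h _ ⟨x, hx, rfl⟩)
  have hcardA : Nat.card A ≠ 1 := by
    intro h
    exact hAne (Subgroup.card_eq_one.1 h)
  obtain ⟨r, hr, hrd⟩ := Nat.exists_prime_and_dvd hcardA
  haveI := Fact.mk hr
  obtain ⟨a, ha⟩ := exists_prime_orderOf_dvd_card' r hrd
  let M : Subgroup G :=
    { carrier := {g | g ∈ A ∧ g ^ r = 1}
      one_mem' := ⟨A.one_mem, one_pow _⟩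
      mul_mem' := by
        rintro x y ⟨hx1, hx2⟩ ⟨hy1, hy2⟩
        refine ⟨A.mul_mem hx1 hy1, ?_⟩
        rw [(show Commute x y from hAc x hx1 y hy1).mul_pow, hx2, hy2, one_mul]
      inv_mem' := by
        rintro x ⟨hx1, hx2⟩
        refine ⟨A.inv_mem hx1, ?_⟩
        rw [inv_pow, hx2, inv_one] }
  refine ⟨r, M, hr, ?_, ?_, ?_, ?_⟩
  · constructor
    rintro x ⟨hx1, hx2⟩ g
    refine ⟨hAn.conj_mem x hx1 g, ?_⟩
    rw [conj_pow, hx2]; simp
  · rintro ⟨x, hx1, hx2⟩
    refine ⟨1, ?_⟩
    apply Subtype.ext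
    simpa using hx2
  · intro h
    have hmem : (a : G) ∈ M := by
      refine ⟨a.2, ?_⟩
      have : a ^ r = 1 := by rw [← ha]; exact pow_orderOf_eq_one a
      exact congrArg Subtype.val this
    rw [h, Subgroup.mem_bot] at hmem
    have ha1 : a = 1 := Subtype.ext hmem
    rw [ha1, orderOf_one] at ha
    exact hr.one_lt.ne ha
  · intro x hx
    exact hAN hx.1

/-- Lifting through a solvable normal subgroup. -/
theorem lift_solvable : ∀ (n : ℕ) (G : Type u) [Group G] [Finite G] (N : Subgroup G) [N.Normal],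
    Nat.card G = n → Group.IsSolvable N → Prop1 (G ⧸ N) → Prop1 G := by
  intro n
  induction n using Nat.strong_induction_on with
  | _ n ih =>
    intro G _ _ N _ hn hs hq
    haveI := Fintype.ofFinite G
    by_cases hN : N = ⊥
    · subst hN
      have e : G ⧸ (⊥ : Subgroup G) ≃* G := QuotientGroup.quotientBot
      exact prop1_of_equiv e.symm hq
    · haveI := hs
      obtain ⟨r, M, hr, hMn, hMp, hMb, hMN⟩ := exists_normal_pGroup G N hN
      haveI := hMn
      apply prop1_step hr M hMp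
      have hcard : Nat.card (G ⧸ M) < n := by
        rw [← hn]
        have h1 := Subgroup.card_eq_card_quotient_mul_card_subgroup M
        have h2 : 1 < Nat.card M := by
          rw [Subgroup.one_lt_card_iff_ne_bot]; exact hMb
        have h3 : 0 < Nat.card (G ⧸ M) := Nat.card_pos
        rw [h1]
        nlinarith
      have hs' : Group.IsSolvable (N.map (QuotientGroup.mk' M)) :=
        solvable_of_surjective (f := (QuotientGroup.mk' M).subgroupMap N)
          ((QuotientGroup.mk' M).subgroupMap_surjective N)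
      refine ih _ hcard (G ⧸ M) (N.map (QuotientGroup.mk' M)) rfl hs' ?_
      exact prop1_of_equiv (QuotientGroup.quotientQuotientEquivQuotient M N hMN) hq

lemma prop1_of_subsingleton (G : Type u) [Group G] [Subsingleton G] : Prop1 G := by
  classical
  intro T hT
  have hc : Nat.card G = 1 := Nat.card_eq_one_iff_unique.2 ⟨inferInstance, ⟨1⟩⟩
  haveI : Fintype G := Fintype.ofFinite G
  rw [hc]
  by_cases hT0 : T = ∅
  · subst hT0
    have : AT G ∅ ≤ 1 := by
      rw [AT_eq]
      refine (Finset.card_le_univ _).trans ?_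
      rw [← Nat.card_eq_fintype_card, hc]
    simp only [prod_empty, mul_one, Nat.cast_one]
    exact_mod_cast this
  · obtain ⟨q, hq⟩ := Finset.nonempty_iff_ne_empty.2 hT0
    have h1 : AT G T = 0 := by
      rw [AT_eq, Finset.card_eq_zero, Finset.filter_eq_empty_iff]
      intro x _ hx
      have h2 := hx q hq
      have h3 : x = 1 := Subsingleton.elim _ _
      rw [h3, orderOf_one] at h2
      exact (hT q hq).one_lt.ne' (Nat.dvd_one.1 h2)
    rw [h1]
    simp only [Nat.factorization_one, Finsupp.coe_zero, Pi.zero_apply, pow_zero, Nat.cast_one,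
      Nat.cast_zero, one_mul]
    apply Finset.prod_nonneg
    intro q _
    norm_num

theorem prop1_of_solvable (G : Type u) [Group G] [Finite G] (h : Group.IsSolvable G) :
    Prop1 G := by
  haveI := h
  refine lift_solvable (Nat.card G) G ⊤ rfl inferInstance ?_
  haveI : Subsingleton (G ⧸ (⊤ : Subgroup G)) := QuotientGroup.subsingleton_quotient_top
  exact prop1_of_subsingleton _

end Pool.Y789.OP
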