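import Pool.Agent.Y789.OP.Solv

set_option autoImplicit false

/-!
Weighted sums over a group in terms of the numbers `AT`, and the cyclic group.
-/

namespace Pool.Y789.OP

open Finset

universe u v

/-- The number of elements whose order is divisible by no member of `U`. -/
noncomputable def NT (G : Type*) [Group G] (U : Finset ℕ) : ℕ :=
  Nat.card {x : G // ∀ q ∈ U, ¬ q ∣ orderOf x}

open Classical in
lemma NT_eq {G : Type*} [Group G] [Fintype G] (U : Finset ℕ) :
    NT G U = #{x : G | ∀ q ∈ U, ¬ q ∣ orderOf x} := by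
  unfold NT
  rw [Nat.card_eq_fintype_card, Fintype.card_subtype]

lemma prod_one_sub (T : Finset ℕ) (c : ℕ → ℝ) :
    ∏ q ∈ T, (1 - c q) = ∑ U ∈ T.powerset, (-1) ^ #U * ∏ q ∈ U, c q := by
  have h1 : ∏ q ∈ T, (1 - c q) = ∏ q ∈ T, (1 + (-c q)) := by
    simp only [sub_eq_add_neg]
  rw [h1, Finset.prod_one_add]
  apply Finset.sum_congr rfl
  intro U _
  rw [Finset.prod_neg]

lemma ite_prod (P : ℕ → Prop) [DecidablePred P] (T : Finset ℕ) :
    ∏ q ∈ T, (if P q then (1 : ℝ) else 0) = if ∀ q ∈ T, P q then 1 else 0 := by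
  split_ifs with h
  · apply Finset.prod_eq_one
    intro q hq
    rw [if_pos (h q hq)]
  · push Not at h
    obtain ⟨q, hq, hP⟩ := h
    apply Finset.prod_eq_zero hq
    rw [if_neg hP]

lemma AT_ie {G : Type*} [Group G] [Finite G] (T : Finset ℕ) :
    (AT G T : ℝ) = ∑ U ∈ T.powerset, (-1) ^ #U * (NT G U : ℝ) := by
  classical
  haveI := Fintype.ofFinite G
  have h1 : (AT G T : ℝ) = ∑ x : G, ∏ q ∈ T, (if q ∣ orderOf x then (1 : ℝ) else 0) := by
    rw [AT_eq, Finset.card_filter]
    push_cast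
    apply Finset.sum_congr rfl
    intro x _
    rw [ite_prod]
  have h2 : ∀ x : G, ∏ q ∈ T, (if q ∣ orderOf x then (1 : ℝ) else 0) =
      ∑ U ∈ T.powerset, (-1) ^ #U * ∏ q ∈ U, (if ¬ q ∣ orderOf x then (1 : ℝ) else 0) := by
    intro x
    rw [← prod_one_sub]
    apply Finset.prod_congr rfl
    intro q _
    by_cases h : q ∣ orderOf x <;> simp [h]
  rw [h1, Finset.sum_congr rfl (fun x _ => h2 x), Finset.sum_comm]
  apply Finset.sum_congr rfl
  intro U _
  rw [← Finset.mul_sum]
  congr 1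
  rw [NT_eq, Finset.card_filter]
  push_cast
  apply Finset.sum_congr rfl
  intro x _
  rw [ite_prod (fun q => ¬ q ∣ orderOf x)]

lemma NT_ie {G : Type*} [Group G] [Finite G] (T : Finset ℕ) :
    (NT G T : ℝ) = ∑ U ∈ T.powerset, (-1) ^ #U * (AT G U : ℝ) := by
  classical
  haveI := Fintype.ofFinite G
  have h1 : (NT G T : ℝ) = ∑ x : G, ∏ q ∈ T, (if ¬ q ∣ orderOf x then (1 : ℝ) else 0) := by
    rw [NT_eq, Finset.card_filter]
    push_cast
    apply Finset.sum_congr rfl
    intro x _
    rw [ite_prod (fun q => ¬ q ∣ orderOf x)]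
  have h2 : ∀ x : G, ∏ q ∈ T, (if ¬ q ∣ orderOf x then (1 : ℝ) else 0) =
      ∑ U ∈ T.powerset, (-1) ^ #U * ∏ q ∈ U, (if q ∣ orderOf x then (1 : ℝ) else 0) := by
    intro x
    rw [← prod_one_sub]
    apply Finset.prod_congr rfl
    intro q _
    by_cases h : q ∣ orderOf x <;> simp [h]
  rw [h1, Finset.sum_congr rfl (fun x _ => h2 x), Finset.sum_comm]
  apply Finset.sum_congr rfl
  intro U _
  rw [← Finset.mul_sum]
  congr 1
  rw [AT_eq, Finset.card_filter]
  push_cast
  apply Finset.sum_congr rfl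
  intro x _
  rw [ite_prod]

/-- Elements of order prime to all members of `U`, in a cyclic group. -/
lemma NT_cyclic {C : Type*} [Group C] [Finite C] [IsCyclic C] (U : Finset ℕ)
    (hU : ∀ q ∈ U, q.Prime) :
    (NT C U : ℝ) = (Nat.card C : ℝ) *
      ∏ q ∈ U, (1 / ((q ^ (Nat.card C).factorization q : ℕ) : ℝ)) := by
  classical
  letI : CommGroup C := IsCyclic.commGroup
  set n := Nat.card C with hn
  have hn0 : n ≠ 0 := Nat.card_pos.ne'
  set D := ∏ q ∈ U, q ^ n.factorization q with hD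
  have hDn : D ∣ n := by
    apply Finset.prod_dvd_of_isRelPrime
    · intro a ha b hb hab
      rw [Function.onFun, ← Nat.coprime_iff_isRelPrime]
      exact Nat.Coprime.pow _ _ ((Nat.coprime_primes (hU a ha) (hU b hb)).2 hab)
    · intro q _
      exact Nat.ordProj_dvd n q
  obtain ⟨m, hm⟩ := hDn
  have hD0 : D ≠ 0 := by
    intro h
    rw [h, zero_mul] at hm
    exact hn0 hm
  have hqm : ∀ q ∈ U, ¬ q ∣ m := by
    intro q hq hd
    have h1 : q ^ n.factorization q ∣ D := Finset.dvd_prod_of_mem _ hq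
    have h2 : q ^ (n.factorization q + 1) ∣ n := by
      rw [pow_succ]
      conv_rhs => rw [hm]
      exact mul_dvd_mul h1 hd
    exact Nat.pow_succ_factorization_not_dvd hn0 (hU q hq) h2
  have hset : ∀ x : C, (∀ q ∈ U, ¬ q ∣ orderOf x) ↔ x ^ m = 1 := by
    intro x
    constructor
    · intro h
      have hco : Nat.Coprime (orderOf x) D := by
        apply Nat.Coprime.prod_right
        intro q hq
        apply Nat.Coprime.pow_right
        exact ((Nat.Prime.coprime_iff_not_dvd (hU q hq)).2 (h q hq)).symm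
      have h1 : orderOf x ∣ D * m := by
        rw [← hm]; exact orderOf_dvd_natCard x
      exact orderOf_dvd_iff_pow_eq_one.1 (hco.dvd_of_dvd_mul_left h1)
    · intro h q hq hd
      exact hqm q hq (hd.trans (orderOf_dvd_of_pow_eq_one h))
  have hcard : NT C U = m := by
    have h1 := IsCyclic.card_powMonoidHom_ker C m
    rw [← hn, hm, Nat.gcd_mul_left_left] at h1
    rw [← h1]
    unfold NT
    refine Nat.card_congr (Equiv.subtypeEquivRight ?_)
    intro x
    rw [hset, MonoidHom.mem_ker, powMonoidHom_apply]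
  rw [hcard]
  have h2 : (n : ℝ) = (D : ℝ) * (m : ℝ) := by exact_mod_cast hm
  have h3 : ∏ q ∈ U, (1 / ((q ^ n.factorization q : ℕ) : ℝ)) = 1 / (D : ℝ) := by
    rw [Finset.prod_div_distrib, Finset.prod_const_one, hD]
    push_cast
    rfl
  have hD1 : (D : ℝ) ≠ 0 := by exact_mod_cast hD0
  rw [h3, h2]
  field_simp

lemma AT_cyclic {C : Type*} [Group C] [Finite C] [IsCyclic C] (T : Finset ℕ)
    (hT : ∀ q ∈ T, q.Prime) :
    (AT C T : ℝ) = (Nat.card C : ℝ) *
      ∏ q ∈ T, (1 - 1 / ((q ^ (Nat.card C).factorization q : ℕ) : ℝ)) := by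
  rw [AT_ie, prod_one_sub, Finset.mul_sum]
  apply Finset.sum_congr rfl
  intro U hU
  rw [NT_cyclic U (fun q hq => hT q (Finset.mem_powerset.1 hU hq))]
  ring

/-- The domination property in terms of a cyclic group. -/
lemma AT_le_cyclic {G C : Type*} [Group G] [Finite G] [Group C] [Finite C] [IsCyclic C]
    (hc : Nat.card C = Nat.card G) (h : Prop1 G) (T : Finset ℕ) (hT : ∀ q ∈ T, q.Prime) :
    AT G T ≤ AT C T := by
  have h1 := h T hT
  rw [← hc, ← AT_cyclic T hT] at h1
  exact_mod_cast h1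

lemma prop1_of_AT_le {G C : Type*} [Group G] [Finite G] [Group C] [Finite C] [IsCyclic C]
    (hc : Nat.card C = Nat.card G)
    (h : ∀ T : Finset ℕ, (∀ q ∈ T, q.Prime) → AT G T ≤ AT C T) : Prop1 G := by
  intro T hT
  rw [← hc, ← AT_cyclic T hT]
  exact_mod_cast h T hT

/-- Weighted sums. -/
lemma sum_weight {G : Type*} [Group G] [Fintype G] (w : ℕ → ℝ) :
    ∑ x : G, ∏ q ∈ (orderOf x).primeFactors, (1 + w q) =
      ∑ T ∈ (Nat.card G).primeFactors.powerset, (∏ q ∈ T, w q) * (AT G T : ℝ) := by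
  classical
  have h1 : ∀ x : G, ∏ q ∈ (orderOf x).primeFactors, (1 + w q) =
      ∑ T ∈ (Nat.card G).primeFactors.powerset,
        (∏ q ∈ T, w q) * (if ∀ q ∈ T, q ∣ orderOf x then (1 : ℝ) else 0) := by
    intro x
    rw [Finset.prod_one_add]
    have hsub : (orderOf x).primeFactors ⊆ (Nat.card G).primeFactors :=
      Nat.primeFactors_mono (orderOf_dvd_natCard x) Nat.card_pos.ne'
    have h2 : (orderOf x).primeFactors.powerset =
        (Nat.card G).primeFactors.powerset.filter (fun T => ∀ q ∈ T, q ∣ orderOf x) := by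
      ext T
      simp only [mem_powerset, mem_filter]
      constructor
      · intro h
        exact ⟨h.trans hsub, fun q hq => Nat.dvd_of_mem_primeFactors (h hq)⟩
      · rintro ⟨h3, h4⟩ q hq
        rw [Nat.mem_primeFactors]
        exact ⟨Nat.prime_of_mem_primeFactors (h3 hq), h4 q hq, (orderOf_pos x).ne'⟩
    rw [h2, Finset.sum_filter]
    apply Finset.sum_congr rfl
    intro T _
    split_ifs <;> simp
  rw [Finset.sum_congr rfl (fun x _ => h1 x), Finset.sum_comm]
  apply Finset.sum_congr rfl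
  intro T _
  rw [← Finset.mul_sum]
  congr 1
  rw [AT_eq, Finset.card_filter]
  push_cast
  rfl

/-- The main inequality for weighted sums. -/
theorem sum_le {G : Type*} [Group G] [Fintype G] {C : Type*} [Group C] [Fintype C] [IsCyclic C]
    (hc : Nat.card C = Nat.card G) (h : Prop1 G) (w : ℕ → ℝ) (hw : ∀ q, 0 ≤ w q) :
    ∑ x : G, ∏ q ∈ (orderOf x).primeFactors, (1 + w q) ≤
      ∑ x : C, ∏ q ∈ (orderOf x).primeFactors, (1 + w q) := by
  rw [sum_weight, sum_weight, hc]
  apply Finset.sum_le_sum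
  intro T hT
  apply mul_le_mul_of_nonneg_left
  · exact_mod_cast AT_le_cyclic hc h T
      (fun q hq => Nat.prime_of_mem_primeFactors (Finset.mem_powerset.1 hT hq))
  · exact Finset.prod_nonneg (fun q _ => hw q)

/-- In the case of equality the numbers agree. -/
theorem AT_eq_of_sum_eq {G : Type*} [Group G] [Fintype G] {C : Type*} [Group C] [Fintype C]
    [IsCyclic C] (hc : Nat.card C = Nat.card G) (h : Prop1 G) (w : ℕ → ℝ)
    (hw : ∀ q, q.Prime → 0 < w q)
    (heq : ∑ x : G, ∏ q ∈ (orderOf x).primeFactors, (1 + w q) =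
      ∑ x : C, ∏ q ∈ (orderOf x).primeFactors, (1 + w q)) :
    ∀ T ⊆ (Nat.card G).primeFactors, AT G T = AT C T := by
  rw [sum_weight, sum_weight, hc] at heq
  have hpr : ∀ T ⊆ (Nat.card G).primeFactors, ∀ q ∈ T, q.Prime :=
    fun T hT q hq => Nat.prime_of_mem_primeFactors (hT hq)
  have h1 : ∀ T ∈ (Nat.card G).primeFactors.powerset,
      (∏ q ∈ T, w q) * (AT G T : ℝ) ≤ (∏ q ∈ T, w q) * (AT C T : ℝ) := by
    intro T hT
    apply mul_le_mul_of_nonneg_left
    · exact_mod_cast AT_le_cyclic hc h T (hpr T (Finset.mem_powerset.1 hT))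
    · exact Finset.prod_nonneg (fun q hq => (hw q (hpr T (Finset.mem_powerset.1 hT) q hq)).le)
  have h2 := (Finset.sum_eq_sum_iff_of_le h1).1 heq
  intro T hT
  have h3 := h2 T (Finset.mem_powerset.2 hT)
  have h4 : (0 : ℝ) < ∏ q ∈ T, w q := Finset.prod_pos (fun q hq => hw q (hpr T hT q hq))
  have h5 := mul_left_cancel₀ h4.ne' h3
  exact_mod_cast h5

/-- If the numbers agree with those of the cyclic group, the group is nilpotent. -/
theorem nilpotent_of_AT_eq {G : Type*} [Group G] [Finite G] {C : Type*} [Group C] [Finite C]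
    [IsCyclic C] (hc : Nat.card C = Nat.card G)
    (h : ∀ T ⊆ (Nat.card G).primeFactors, AT G T = AT C T) : Group.IsNilpotent G := by
  classical
  haveI := Fintype.ofFinite G
  rw [(Group.isNilpotent_of_finite_tfae (G := G)).out 0 3 rfl rfl]
  intro p hp P
  set n := Nat.card G with hn
  have hn0 : n ≠ 0 := Nat.card_pos.ne'
  have hNT : ∀ U ⊆ n.primeFactors, (NT G U : ℝ) = NT C U := by
    intro U hU
    rw [NT_ie, NT_ie]
    apply Finset.sum_congr rfl
    intro T hT
    rw [h T ((Finset.mem_powerset.1 hT).trans hU)]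
  set U := n.primeFactors.erase p with hU
  have h1 : NT G U = NT C U := by exact_mod_cast hNT U (Finset.erase_subset _ _)
  have hUp : ∀ q ∈ U, q.Prime := fun q hq =>
    Nat.prime_of_mem_primeFactors (Finset.mem_of_mem_erase hq)
  have h2 := NT_cyclic (C := C) U hUp
  rw [hc] at h2
  have h3 : (n : ℝ) = ((p ^ n.factorization p : ℕ) : ℝ) *
      ∏ q ∈ U, ((q ^ n.factorization q : ℕ) : ℝ) := by
    have h4 : n = ∏ q ∈ n.primeFactors, q ^ n.factorization q :=
      (Nat.prod_factorization_pow_eq_self hn0).symm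
    by_cases hpn : p ∈ n.primeFactors
    · conv_lhs => rw [h4]
      rw [← Finset.mul_prod_erase _ _ hpn]
      push_cast
      rfl
    · have h5 : n.factorization p = 0 := by
        rw [← Finsupp.notMem_support_iff, Nat.support_factorization]
        exact hpn
      rw [h5, hU, Finset.erase_eq_of_notMem hpn]
      conv_lhs => rw [h4]
      push_cast
      ring
  have h6 : (NT C U : ℝ) = ((p ^ n.factorization p : ℕ) : ℝ) := by
    rw [h2, h3, mul_assoc, ← Finset.prod_mul_distrib]
    have : ∏ q ∈ U, ((q ^ n.factorization q : ℕ) : ℝ) * (1 / ((q ^ n.factorization q : ℕ) : ℝ)) = 1 := by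
      apply Finset.prod_eq_one
      intro q hq
      have : ((q ^ n.factorization q : ℕ) : ℝ) ≠ 0 := by
        exact_mod_cast pow_ne_zero _ (hUp q hq).ne_zero
      field_simp
    rw [this, mul_one]
  have h7 : NT G U = p ^ n.factorization p := by
    rw [h1]; exact_mod_cast h6
  have hPc : Nat.card P = p ^ n.factorization p := P.card_eq_multiplicity
  -- every element of `p`-power order lies in `P`
  have hsub : ∀ x : G, x ∈ (P : Subgroup G) → ∀ q ∈ U, ¬ q ∣ orderOf x := by
    intro x hx q hq hd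
    obtain ⟨k, hk⟩ := P.2 ⟨x, hx⟩
    have h8 : x ^ p ^ k = 1 := congrArg Subtype.val hk
    have h9 : q ∣ p ^ k := hd.trans (orderOf_dvd_of_pow_eq_one h8)
    have h10 : q = p := (Nat.prime_dvd_prime_iff_eq (hUp q hq) hp.out).1
      ((hUp q hq).dvd_of_dvd_pow h9)
    exact Finset.ne_of_mem_erase hq h10
  have hall : ∀ x : G, (∀ q ∈ U, ¬ q ∣ orderOf x) → x ∈ (P : Subgroup G) := by
    have h11 : #{x : G | x ∈ (P : Subgroup G)} = p ^ n.factorization p := by
      rw [← hPc]
      have : Nat.card P = Fintype.card {x : G // x ∈ (P : Subgroup G)} :=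
        Nat.card_eq_fintype_card
      rw [this, Fintype.card_subtype]
    have h12 : (Finset.univ.filter (fun x : G => x ∈ (P : Subgroup G))) =
        Finset.univ.filter (fun x : G => ∀ q ∈ U, ¬ q ∣ orderOf x) := by
      apply Finset.eq_of_subset_of_card_le
      · intro x hx
        simp only [mem_filter, mem_univ, true_and] at hx ⊢
        exact hsub x hx
      · rw [h11, ← NT_eq, h7]
    intro x hx
    have : x ∈ Finset.univ.filter (fun x : G => x ∈ (P : Subgroup G)) := by
      rw [h12]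
      simp only [mem_filter, mem_univ, true_and]
      exact hx
    simpa using this
  constructor
  intro x hx g
  apply hall
  intro q hq
  have h13 : orderOf (g * x * g⁻¹) = orderOf x := by
    have := orderOf_injective (MulAut.conj g).toMonoidHom (MulAut.conj g).injective x
    simpa using this
  rw [h13]
  exact hsub x hx q hq

/-- The quotient `n / φ(n)` and its powers as products. -/
lemma ratio_rpow (n : ℕ) (hn : n ≠ 0) (s : ℝ) :
    ((n : ℝ) / (Nat.totient n : ℝ)) ^ s =
      ∏ q ∈ n.primeFactors, (1 + (((q : ℝ) / ((q : ℝ) - 1)) ^ s - 1)) := by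
  have h1 : (Nat.totient n : ℝ) = (n : ℝ) * ∏ q ∈ n.primeFactors, (1 - ((q : ℝ))⁻¹) := by
    have := Nat.totient_eq_mul_prod_factors n
    have h2 : ((Nat.totient n : ℚ) : ℝ) =
        (((n : ℚ) * ∏ p ∈ n.primeFactors, (1 - (p : ℚ)⁻¹) : ℚ) : ℝ) := by rw [this]
    push_cast at h2
    exact h2
  have hnR : (n : ℝ) ≠ 0 := by exact_mod_cast hn
  have hq1 : ∀ q ∈ n.primeFactors, (1 : ℝ) < (q : ℝ) := by
    intro q hq
    exact_mod_cast (Nat.prime_of_mem_primeFactors hq).one_lt
  have h3 : (n : ℝ) / (Nat.totient n : ℝ) = ∏ q ∈ n.primeFactors, ((q : ℝ) / ((q : ℝ) - 1)) := by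
    rw [h1, div_mul_eq_div_div, div_self hnR, one_div, ← Finset.prod_inv_distrib]
    apply Finset.prod_congr rfl
    intro q hq
    have h4 := hq1 q hq
    have h5 : (q : ℝ) - 1 ≠ 0 := by linarith
    have h6 : (q : ℝ) ≠ 0 := by linarith
    have h7 : 1 - ((q : ℝ))⁻¹ = ((q : ℝ) - 1) / (q : ℝ) := by field_simp
    rw [h7, inv_div]
  rw [h3, ← Real.finsetProd_rpow]
  · apply Finset.prod_congr rfl
    intro q _
    ring
  · intro q hq
    have h4 := hq1 q hq
    exact div_nonneg (by linarith) (by linarith)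

lemma weight_pos {s : ℝ} (hs : 0 < s) {q : ℕ} (hq : q.Prime) :
    0 < ((q : ℝ) / ((q : ℝ) - 1)) ^ s - 1 := by
  have h1 : (1 : ℝ) < (q : ℝ) := by exact_mod_cast hq.one_lt
  have h2 : 1 < (q : ℝ) / ((q : ℝ) - 1) := by
    rw [one_lt_div (by linarith)]
    linarith
  have := Real.one_lt_rpow h2 hs
  linarith

end Pool.Y789.OP
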